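import Pool.Agent.MBX.Stmts
import Pool.Agent.Helper41_Pauli.Latt

/-!
# MBX row CNT: the number of modes and the photon energies (helper49, MP_8cfbae_mp)
-/

set_option autoImplicit false

open MeasureTheory Complex ProbabilityTheory

noncomputable section

namespace Pool.Agent.MBX.H49

open Pool.Agent.Helper49_Pauli

theorem freq_form {L : ℝ} (hL : 0 < L) (n : Fin 3 → ℤ) :
    freq L n = 2 * Real.pi / L * Real.sqrt (∑ j, (n j : ℝ) ^ 2) := by
  have h0 : 0 ≤ 2 * Real.pi / L := by positivity
  unfold freq Pool.Agent.Helper49_Pauli.sq wave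
  have h1 : ∑ j, (2 * Real.pi / L * (n j : ℝ)) ^ 2 =
      (2 * Real.pi / L) ^ 2 * ∑ j, (n j : ℝ) ^ 2 := by
    rw [Finset.mul_sum]
    exact Finset.sum_congr rfl fun j _ => by ring
  rw [h1, Real.sqrt_mul (by positivity), Real.sqrt_sq h0]

theorem one_le_sum {n : Fin 3 → ℤ} (hn : n ≠ 0) : (1 : ℝ) ≤ ∑ j, (n j : ℝ) ^ 2 := by
  obtain ⟨j, hj⟩ : ∃ j, n j ≠ 0 := by
    by_contra h
    push Not at h
    exact hn (funext h)
  have h1 : (1 : ℝ) ≤ (n j : ℝ) ^ 2 := by
    have h2 : (1 : ℤ) ≤ (n j) ^ 2 := by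
      have := sq_pos_of_ne_zero hj
      omega
    exact_mod_cast h2
  exact h1.trans (Finset.single_le_sum (f := fun j => (n j : ℝ) ^ 2) (fun i _ => sq_nonneg _)
    (Finset.mem_univ j))

theorem cnt : CntStmt := by
  intro cut L hL hcut
  have hpi := Real.pi_pos
  have hpi3 := Real.pi_gt_three
  have hmem : ∀ n, n ∈ momenta cut L ↔ n ≠ 0 ∧ freq L n < cut := latt.1 cut L hL
  have hlow : ∀ n, n ≠ 0 → 2 * Real.pi / L ≤ freq L n := by
    intro n hn
    rw [freq_form hL]
    have h1 : (1 : ℝ) ≤ Real.sqrt (∑ j, (n j : ℝ) ^ 2) := by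
      rw [Real.one_le_sqrt]
      exact one_le_sum hn
    have h0 : 0 ≤ 2 * Real.pi / L := by positivity
    nlinarith
  have hcard : Fintype.card (Mode cut L) = (momenta cut L).card * 2 := by
    rw [Fintype.card_prod, Fintype.card_coe, Fintype.card_fin]
  refine ⟨?_, ?_, ?_⟩
  · -- at least two momenta
    have he : ∀ s : ℤ, s ^ 2 = 1 → (Pi.single 0 s : Fin 3 → ℤ) ∈ momenta cut L := by
      intro s hs
      rw [hmem]
      refine ⟨?_, ?_⟩
      · intro h
        have := congrFun h 0
        rw [Pi.single_eq_same] at this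
        rw [this] at hs
        norm_num at hs
      · rw [freq_form hL]
        have h1 : ∑ j, ((Pi.single 0 s : Fin 3 → ℤ) j : ℝ) ^ 2 = 1 := by
          rw [Fin.sum_univ_three]
          have hs' : (s : ℝ) ^ 2 = 1 := by exact_mod_cast hs
          simp [hs']
        rw [h1, Real.sqrt_one, mul_one, div_lt_iff₀ hL]
        linarith [mul_comm L cut]
    have h2 : ({Pi.single 0 1, Pi.single 0 (-1)} : Finset (Fin 3 → ℤ)) ⊆ momenta cut L := by
      intro n hn
      rw [Finset.mem_insert, Finset.mem_singleton] at hn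
      rcases hn with h | h
      · rw [h]; exact he 1 (by norm_num)
      · rw [h]; exact he (-1) (by norm_num)
    have h3 : ({Pi.single 0 1, Pi.single 0 (-1)} : Finset (Fin 3 → ℤ)).card = 2 := by
      rw [Finset.card_pair]
      intro h
      have := congrFun h 0
      rw [Pi.single_eq_same, Pi.single_eq_same] at this
      norm_num at this
    have h4 := Finset.card_le_card h2
    omega
  · -- at most l ^ 3 momenta
    set r : ℝ := L * cut / (2 * Real.pi) with hr
    have hr1 : 1 < r := by
      rw [hr, one_lt_div (by positivity)]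
      exact hcut
    set N : ℕ := ⌊r⌋₊ with hN
    have hNr : (N : ℝ) ≤ r := Nat.floor_le (by linarith)
    have h1 : momenta cut L ⊆ Fintype.piFinset fun _ : Fin 3 => Finset.Icc (-(N : ℤ)) N := by
      intro n hn
      rw [hmem, freq_form hL] at hn
      rw [Fintype.mem_piFinset]
      intro j
      have h2 : |(n j : ℝ)| ≤ Real.sqrt (∑ j, (n j : ℝ) ^ 2) := by
        apply Real.abs_le_sqrt
        exact Finset.single_le_sum (f := fun j => (n j : ℝ) ^ 2) (fun i _ => sq_nonneg _)
          (Finset.mem_univ j)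
      have h3 : |(n j : ℝ)| < r := by
        rw [hr, lt_div_iff₀ (by positivity)]
        have h4 := hn.2
        have h5 : 2 * Real.pi / L * |(n j : ℝ)| < cut := by
          refine lt_of_le_of_lt ?_ h4
          exact mul_le_mul_of_nonneg_left h2 (by positivity)
        rw [div_mul_eq_mul_div, div_lt_iff₀ hL] at h5
        linarith [mul_comm cut L, mul_comm (2 * Real.pi) |(n j : ℝ)|]
      have h6 : ((n j).natAbs : ℝ) ≤ r := by
        rw [Nat.cast_natAbs]
        push_cast
        exact h3.le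
      have h7 : (n j).natAbs ≤ N := Nat.le_floor h6
      rw [Finset.mem_Icc]
      omega
    have h2 := Finset.card_le_card h1
    rw [Fintype.card_piFinset_const, Int.card_Icc] at h2
    have h3 : ((N : ℤ) + 1 - -(N : ℤ)).toNat = 2 * N + 1 := by omega
    rw [h3] at h2
    have h4 : ((momenta cut L).card : ℝ) ≤ (2 * (N : ℝ) + 1) ^ 3 := by exact_mod_cast h2
    have h5 : 2 * (N : ℝ) + 1 ≤ L * cut := by
      have h6 : 2 * Real.pi * r = L * cut := by
        rw [hr]
        field_simp
      nlinarith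
    have h6 : (2 * (N : ℝ) + 1) ^ 3 ≤ (L * cut) ^ 3 := by
      have : (0 : ℝ) ≤ 2 * (N : ℝ) + 1 := by positivity
      exact pow_le_pow_left₀ this h5 3
    rw [hcard]
    push_cast
    linarith
  · rintro ⟨⟨n, hn⟩, l⟩
    have h1 := (hmem n).mp hn
    exact ⟨hlow n h1.1, h1.2⟩

end Pool.Agent.MBX.H49
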